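import Pool.Agent.H320Z.SigComplete

set_option autoImplicit false

/-! The loading problem for the three-node network with two standard-sigmoid hidden nodes on
Boolean inputs is NP-hard, already for `m ≤ 24 k` labelled points. -/

namespace Pool.Agent.Results.MP_fae5c8_lc.NPHardLoading

open Pool.Agent.NPC Pool.Agent.H320Z.Sig

theorem result (L : Set (List Bool)) (hL : InNP L) :
    ∃ f : List Bool → Inst, PolyTime (fun x => bits (f x)) ∧
      (∀ x, WellFormed (f x) ∧ (f x).2.length ≤ 24 * (f x).1) ∧
      ∀ x, x ∈ L ↔ Loadable (f x) := by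
  obtain ⟨f, hf, h1, h2⟩ := hardPr_load L hL
  exact ⟨f, PC.toPolyTime hf, h1, h2⟩

end Pool.Agent.Results.MP_fae5c8_lc.NPHardLoading
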